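import Mathlib

/-!
# Ring `Q`-homeomorphisms with respect to the `p`-module: definitions
-/

set_option autoImplicit false

open MeasureTheory Set Filter Topology Metric

open scoped ENNReal NNReal ContDiff

namespace Pool.Agent.Helper12.RQ

/-- Euclidean `n`-space. -/
abbrev E (n : ℕ) : Type := EuclideanSpace ℝ (Fin n)

/-- A closed rectifiable curve, given by a Lipschitz parametrisation `toFun` on `[a, b]`. -/
structure Curve (n : ℕ) where
  /-- left end of the parameter interval -/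
  a : ℝ
  /-- right end of the parameter interval -/
  b : ℝ
  lt : a < b
  /-- the parametrisation (only its values on `[a, b]` matter) -/
  toFun : ℝ → E n
  lip : ∃ K : ℝ≥0, LipschitzWith K toFun

/-- The line integral of `ρ` with respect to arc length. -/
noncomputable def Curve.lineInt {n : ℕ} (γ : Curve n) (ρ : E n → ℝ≥0∞) : ℝ≥0∞ :=
  ∫⁻ t in Icc γ.a γ.b, ρ (γ.toFun t) * ‖deriv γ.toFun t‖ₑ

/-- `Δ(A, B, D)`: the curves joining `A` and `B` in `D`. -/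
def Delta {n : ℕ} (A B D : Set (E n)) : Set (Curve n) :=
  {γ | γ.toFun γ.a ∈ A ∧ γ.toFun γ.b ∈ B ∧ ∀ t ∈ Ioo γ.a γ.b, γ.toFun t ∈ D}

/-- The `p`-module of a family of curves. -/
noncomputable def pModule {n : ℕ} (p : ℝ) (Γ : Set (Curve n)) : ℝ≥0∞ :=
  ⨅ (ρ : E n → ℝ≥0∞) (_ : Measurable ρ ∧ ∀ γ ∈ Γ, 1 ≤ γ.lineInt ρ), ∫⁻ x, ρ x ^ p

/-- `f` is a homeomorphism of the open set `G` onto an open set and a ring `Q`-homeomorphism with
respect to the `p`-module at `x₀`.  For `r > 0`, `r < dist (x₀, ∂G)` is written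
`closedBall x₀ r ⊆ G`. -/
structure IsRingQHomeo {n : ℕ} (p : ℝ) (G : Set (E n)) (x₀ : E n) (Q : E n → ℝ≥0∞)
    (f : E n → E n) : Prop where
  embed : IsOpenEmbedding (fun x : G => f x)
  ring : ∀ r₁ r₂ : ℝ, 0 < r₁ → r₁ < r₂ → closedBall x₀ r₂ ⊆ G →
    ∀ η : ℝ → ℝ≥0∞, Measurable η → 1 ≤ ∫⁻ r in Ioo r₁ r₂, η r →
      pModule p (Delta (f '' sphere x₀ r₁) (f '' sphere x₀ r₂) (f '' G)) ≤
        ∫⁻ x in {x | r₁ < dist x x₀ ∧ dist x x₀ < r₂}, Q x * η (dist x x₀) ^ p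

/-- All the data quantified over: `G` is a domain, `x₀ ∈ G`, `Q` is measurable and `f` is a ring
`Q`-homeomorphism with respect to the `p`-module at `x₀`. -/
structure Data {n : ℕ} (p : ℝ) (G : Set (E n)) (x₀ : E n) (Q : E n → ℝ≥0∞)
    (f : E n → E n) : Prop where
  isOpen : IsOpen G
  conn : IsConnected G
  mem : x₀ ∈ G
  meas : Measurable Q
  homeo : IsRingQHomeo p G x₀ Q f

/-- `dist (x₀, ∂G)` (`∞` if `G` is the whole space). -/
noncomputable def bdist {n : ℕ} (G : Set (E n)) (x₀ : E n) : ℝ≥0∞ := Metric.infEDist x₀ Gᶜ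

/-- `‖Q‖_s` over the set `D`. -/
noncomputable def nrm {n : ℕ} (s : ℝ) (Q : E n → ℝ≥0∞) (D : Set (E n)) : ℝ≥0∞ :=
  (∫⁻ x in D, Q x ^ s) ^ (1 / s)

/-- Estimate (E1) with the constant `C`, the norm of `Q` being taken over `D G x₀`. -/
def E1 (n : ℕ) (p : ℝ) (D : Set (E n) → E n → Set (E n)) (C : ℝ) : Prop :=
  ∀ (G : Set (E n)) (x₀ : E n) (Q : E n → ℝ≥0∞) (f : E n → E n), Data p G x₀ Q f →
    ∀ x, x ≠ x₀ → edist x x₀ < min 1 (bdist G x₀ ^ 4) →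
      ENNReal.ofReal ‖f x - f x₀‖ ≤
        ENNReal.ofReal C * nrm (n / (n - p)) Q (D G x₀) ^ (1 / (n - p)) *
          ENNReal.ofReal (Real.log (1 / ‖x - x₀‖) ^ (-(p * (n - 1) / (n * (n - p)))))

/-- Estimate (E2) with the constant `C`, the norm of `Q` being taken over `D G x₀`. -/
def E2 (n : ℕ) (p : ℝ) (D : Set (E n) → E n → Set (E n)) (C : ℝ) : Prop :=
  ∀ (G : Set (E n)) (x₀ : E n) (Q : E n → ℝ≥0∞) (f : E n → E n), Data p G x₀ Q f →
    ∀ α : ℝ, n / (n - p) < α → ∀ x, x ≠ x₀ → edist x x₀ < bdist G x₀ / 4 →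
      ENNReal.ofReal ‖f x - f x₀‖ ≤
        ENNReal.ofReal C * nrm α Q (D G x₀) ^ (1 / (n - p)) *
          ENNReal.ofReal (‖x - x₀‖ ^ (1 - n / (α * (n - p))))

/-- `Q_{x₀}`: the upper limit of the means of `Q` over the balls `B(x₀, r)`. -/
noncomputable def Qbar {n : ℕ} (Q : E n → ℝ≥0∞) (x₀ : E n) : ℝ≥0∞ :=
  limsup (fun r : ℝ => (∫⁻ x in ball x₀ r, Q x) / volume (ball x₀ r)) (𝓝[>] 0)

/-- `L(x₀, f)`. -/
noncomputable def Lbar {n : ℕ} (f : E n → E n) (x₀ : E n) : ℝ≥0∞ :=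
  limsup (fun x => ENNReal.ofReal (‖f x - f x₀‖ / ‖x - x₀‖)) (𝓝[≠] x₀)

/-- Estimate (E3) with the constant `C`. -/
def E3 (n : ℕ) (p : ℝ) (C : ℝ) : Prop :=
  ∀ (G : Set (E n)) (x₀ : E n) (Q : E n → ℝ≥0∞) (f : E n → E n), Data p G x₀ Q f →
    Qbar Q x₀ < ⊤ → Lbar f x₀ ≤ ENNReal.ofReal C * Qbar Q x₀ ^ (1 / (n - p))

/-- `∫ |∇u|^p`. -/
noncomputable def en {n : ℕ} (p : ℝ) (u : E n → ℝ) : ℝ≥0∞ := ∫⁻ x, ‖fderiv ℝ u x‖ₑ ^ p

/-- The `p`-capacity of a segment of length one. -/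
noncomputable def segCap (n : ℕ) (p : ℝ) : ℝ≥0∞ :=
  ⨅ (u : E n → ℝ) (_ : ContDiff ℝ ∞ u ∧ HasCompactSupport u ∧
    ∃ e : E n, ‖e‖ = 1 ∧ ∀ t ∈ Icc (0 : ℝ) 1, 1 ≤ u (t • e)), en p u

/-- The `p`-capacity of a segment of length one, as a real number. -/
noncomputable def kap (n : ℕ) (p : ℝ) : ℝ := (segCap n p).toReal

/-- The surface area of the unit sphere. -/
noncomputable def om (n : ℕ) : ℝ := n * (volume (ball (0 : E n) 1)).toReal

/-- The optimal constant in (E3). -/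
noncomputable def C3 (n : ℕ) (p : ℝ) : ℝ :=
  n / (n - 1) * (om n / kap n p * (n * (n - p) / (p * (n - 1))) ^ (p - 1)) ^ (1 / (n - p))

/-- The optimal constant in (E1). -/
noncomputable def C1 (n : ℕ) (p : ℝ) : ℝ :=
  (4 / 3) ^ (p * (n - 1) / (n * (n - p))) * (om n ^ (p / n) / kap n p) ^ (1 / (n - p))

/-- The exponent `b(α)`. -/
noncomputable def bexp (n : ℕ) (p α : ℝ) : ℝ := (α * (n - p) - n) / (α * (p - 1) + 1)

/-- The optimal constant in (E2) for a fixed exponent `α`. -/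
noncomputable def C2a (n : ℕ) (p α : ℝ) : ℝ :=
  (om n ^ (1 - 1 / α) / kap n p *
    (bexp n p α / (1 - 4 ^ (-bexp n p α))) ^ (p - 1 + 1 / α)) ^ (1 / (n - p))

/-- The optimal constant in (E2). -/
noncomputable def C2 (n : ℕ) (p : ℝ) : ℝ := ⨆ α : {α : ℝ // n / (n - p) < α}, C2a n p α

end Pool.Agent.Helper12.RQ
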