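import Pool.Agent.Helper12.RQ.Main
import Pool.Agent.Helper86.RQ.U1
import Pool.Agent.Helper6.RQ.U2
import Pool.Agent.Helper67.RQ.POL
import Pool.Agent.Helper69.RQ.MOLLSC
import Pool.Agent.Helper8.RQ.CPT
import Pool.Agent.Helper32.RQ.SEG
import Pool.Agent.Helper50.RQ.STAR
import Pool.Agent.Helper77.RQ.POS
import Pool.Agent.Helper19.RQ.MC1
import Pool.Agent.Helper89.RQ.MC2
import Pool.Agent.Helper9.RQ.MODKEY
import Pool.Agent.Helper62.RQ.E3U
import Pool.Agent.Helper96.RQ.MAS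
import Pool.Agent.Helper6.RQ.E1U
import Pool.Agent.Helper27.RQ.E2U
import Pool.Agent.Helper8.RQ.SCAL
import Pool.Agent.Helper11.RQ.WMIN
import Pool.Agent.Helper31.RQ.W
import Pool.Agent.Helper7.RQ.VOLC
import Pool.Agent.Helper57.RQ.HOMEO
import Pool.Agent.Helper45.RQ.RING
import Pool.Agent.Helper45.RQ.IRQ
import Pool.Agent.Helper57.RQ.CHAIN
import Pool.Agent.Helper70.RQ.FLUX
import Pool.Agent.Helper5.RQ.NEEDLE
import Pool.Agent.Helper26.RQ.PROF
import Pool.Agent.Helper64.RQ.SH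
import Pool.Agent.Helper33.RQ.E12L
import Pool.Agent.Helper95.RQ.GLUE
import Pool.Agent.Helper39.RQ.E3L
import Pool.Agent.Helper42.RQ.LIT
import Pool.Agent.Helper97.RQ.DENS
import Pool.Agent.Helper73.RQ.BLK

/-!
# The main theorem, all packets put together
-/

set_option autoImplicit false

namespace Pool.Agent.Helper12.RQ

theorem final_of (dens : StmtVOLC → StmtDENS)
    (blk : StmtNEEDLE → StmtDENS → StmtSCAL → StmtCHAIN → StmtFLUX → StmtPOS → StmtBLK) :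
    StmtMain := by
  have hU1 : StmtU1 := Helper86.RQ.u1
  have hU2 : StmtU2 := Helper6.RQ.u2
  have hPOL : StmtPOL := Helper67.RQ.pol_energy hU2
  have hMOL : StmtMOL := Helper69.RQ.mol
  have hLSC : StmtLSC := Helper69.RQ.lsc
  have hCPT : StmtCPT := Helper8.RQ.cpt
  have hSEG : StmtSEG := Helper32.RQ.seg hMOL
  have hSTAR : StmtSTAR := Helper50.RQ.star hPOL hCPT hLSC hSEG
  have hPOS : StmtPOS := Helper77.RQ.pos
  have hMC1 : StmtMC1 := Helper19.RQ.mc1
  have hMC2 : StmtMC2 := Helper89.RQ.mc2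
  have hMODCAP : StmtMODCAP := Helper9.RQ.modcap hMC1 hMC2
  have hKEY : StmtKEY := Helper9.RQ.key hMODCAP hSTAR hPOS
  have hE3U : StmtE3U := Helper62.RQ.e3u hKEY hPOS
  have hMAS : StmtMAS := Helper96.RQ.mas hKEY hPOS
  have hE1U : StmtE1U := Helper6.RQ.e1u hMAS hPOS
  have hE2U : StmtE2U := Helper27.RQ.e2u hMAS hPOS
  have hSCAL : StmtSCAL := Helper8.RQ.scal
  have hWMIN : StmtWMIN := Helper11.RQ.wmin hU2 hCPT hLSC
  have hW : StmtW := Helper31.RQ.w_of hWMIN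
  have hVOLC : StmtVOLC := Helper7.RQ.volc
  have hDENS : StmtDENS := dens hVOLC
  have hHOMEO : StmtHOMEO := Helper57.RQ.homeo
  have hRING : StmtRING := Helper45.RQ.ring hU1
  have hIRQ : StmtIRQ := Helper45.RQ.irq hRING
  have hCHAIN : StmtCHAIN := Helper57.RQ.chain hDENS
  have hFLUX : StmtFLUX := Helper70.RQ.flux_match
  have hNEEDLE : StmtNEEDLE := Helper5.RQ.needle hW hPOS
  have hPROF : StmtPROF :=
    Helper26.RQ.prof hNEEDLE hDENS hSCAL hCHAIN hFLUX hHOMEO hIRQ hPOS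
  have hSH : StmtSH := Helper64.RQ.sh hPROF hPOS
  have hE1L : StmtE1L := Helper33.RQ.e1l hSH hPOS
  have hE2L : StmtE2L := Helper33.RQ.e2l hSH hPOS
  have hGLUE : StmtGLUE := Helper95.RQ.glue
  have hBLK : StmtBLK := blk hNEEDLE hDENS hSCAL hCHAIN hFLUX hPOS
  have hE3L : StmtE3L := Helper39.RQ.e3l hGLUE hBLK hDENS hHOMEO hIRQ hSCAL hPOS
  have hLIT : StmtLIT := Helper42.RQ.lit hDENS hCHAIN hHOMEO hIRQ
  have hLIT2 : StmtLIT2 := Helper42.RQ.lit2 hLIT
  exact main hPOS hE3U hE3L hE1U hE1L hE2U hE2L hLIT2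

theorem final : StmtMain := final_of Helper97.RQ.dens Helper73.RQ.blk

end Pool.Agent.Helper12.RQ
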