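import Pool.Agent.Helper12.RQ.Defs

/-!
# Ring `Q`-homeomorphisms with respect to the `p`-module: statements of the packets
-/

set_option autoImplicit false

open MeasureTheory Set Filter Topology Metric

open scoped ENNReal NNReal ContDiff RealInnerProductSpace

namespace Pool.Agent.Helper12.RQ

/-! ## Auxiliary definitions -/

/-- Reflection in the hyperplane through `a` orthogonal to the unit vector `ν`. -/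
noncomputable def refl {n : ℕ} (a ν y : E n) : E n := y - (2 * ⟪y - a, ν⟫) • ν

/-- Polarisation of `u` with respect to the half space `{y | 0 ≤ ⟪y - a, ν⟫}`. -/
noncomputable def pol {n : ℕ} (a ν : E n) (u : E n → ℝ) (y : E n) : ℝ :=
  if 0 ≤ ⟪y - a, ν⟫ then max (u y) (u (refl a ν y)) else min (u y) (u (refl a ν y))

/-- Star functions: Lipschitz functions, `0` at `0`, strictly increasing along the rays. -/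
structure IsStar {n : ℕ} (c l : ℝ) (N : E n → ℝ) : Prop where
  cpos : 0 < c
  zero : N 0 = 0
  lip : ∀ y z, |N y - N z| ≤ l * ‖y - z‖
  slope : ∀ y, ∀ t ∈ Icc (0 : ℝ) 1, c * (1 - t) * ‖y‖ ≤ N y - N (t • y)

/-- The flux measure of `N`: the image under `N` of `|∇N|^p dy`. -/
noncomputable def flux {n : ℕ} (p : ℝ) (N : E n → ℝ) (B : Set ℝ) : ℝ≥0∞ :=
  ∫⁻ y in N ⁻¹' B, ‖fderiv ℝ N y‖ₑ ^ p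

/-- `D` is a density of the flux measure of `N` on `(0, ∞)`, comparable with `t ^ (n - 1)`. -/
structure IsDens {n : ℕ} (p : ℝ) (N : E n → ℝ) (D : ℝ → ℝ≥0∞) (d₁ d₂ : ℝ) : Prop where
  meas : Measurable D
  pos : 0 < d₁
  lower : ∀ t : ℝ, 0 < t → ENNReal.ofReal (d₁ * t ^ (n - 1)) ≤ D t
  upper : ∀ t : ℝ, 0 < t → D t ≤ ENNReal.ofReal (d₂ * t ^ (n - 1))
  flux_eq : ∀ B, MeasurableSet B → B ⊆ Ioi 0 → flux p N B = ∫⁻ t in B, D t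

/-! ## Part 0: utilities -/

/-- comparison of measures on the line through their values on intervals -/
def StmtU1 : Prop := ∀ (μ ν : Measure ℝ) (t₀ t₁ : ℝ),
  (∀ a b, t₀ < a → a < b → b < t₁ → ν (Ioo a b) < ⊤) →
  (∀ a b, t₀ < a → a < b → b < t₁ → μ (Ioo a b) ≤ ν (Ioo a b)) →
  ∀ B, MeasurableSet B → B ⊆ Ioo t₀ t₁ → μ B ≤ ν B

/-- gradients of the maximum and the minimum -/
def StmtU2 : Prop := ∀ (n : ℕ) (p : ℝ) (u v : E n → ℝ),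
  (∃ C, LipschitzWith C u) → (∃ C, LipschitzWith C v) →
  ∀ᵐ x : E n, ‖fderiv ℝ (fun y => max (u y) (v y)) x‖ₑ ^ p +
    ‖fderiv ℝ (fun y => min (u y) (v y)) x‖ₑ ^ p = ‖fderiv ℝ u x‖ₑ ^ p + ‖fderiv ℝ v x‖ₑ ^ p

/-- smoothing -/
def StmtMOL : Prop := ∀ (n : ℕ) (p : ℝ), 1 ≤ p → ∀ (u : E n → ℝ) (C : ℝ≥0), LipschitzWith C u →
  HasCompactSupport u → ∀ ε : ℝ, 0 < ε → ∃ v : E n → ℝ, ContDiff ℝ ∞ v ∧ HasCompactSupport v ∧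
    (∀ x, |v x - u x| ≤ ε) ∧ en p v ≤ en p u

/-- lower semicontinuity of the energy -/
def StmtLSC : Prop := ∀ (n : ℕ) (p : ℝ), 1 ≤ p → ∀ (U : ℕ → E n → ℝ) (u : E n → ℝ) (C : ℝ≥0),
  (∀ k, LipschitzWith C (U k)) → (∀ x, Tendsto (fun k => U k x) atTop (𝓝 (u x))) →
  en p u ≤ liminf (fun k => en p (U k)) atTop

/-- compactness -/
def StmtCPT : Prop := ∀ (n : ℕ) (C : ℝ≥0) (U : ℕ → E n → ℝ), (∀ k, LipschitzWith C (U k)) →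
  (∀ k x, 0 ≤ U k x ∧ U k x ≤ 1) →
  ∃ φ : ℕ → ℕ, StrictMono φ ∧ ∃ u : E n → ℝ, ∀ x, Tendsto (fun k => U (φ k) x) atTop (𝓝 (u x))

/-! ## Part I: the segment has the smallest capacity -/

/-- polarisation does not increase the energy -/
def StmtPOL : Prop := ∀ (n : ℕ) (p : ℝ), 0 < p → ∀ (a ν : E n), ‖ν‖ = 1 →
  ∀ (u : E n → ℝ) (C : ℝ≥0), LipschitzWith C u →
    LipschitzWith C (pol a ν u) ∧ en p (pol a ν u) ≤ en p u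

/-- Lipschitz test functions for the capacity of a segment -/
def StmtSEG : Prop := ∀ (n : ℕ) (p : ℝ), 1 ≤ p → ∀ (u : E n → ℝ) (C : ℝ≥0), LipschitzWith C u →
  HasCompactSupport u → ∀ (a e : E n) (L : ℝ), ‖e‖ = 1 → 0 < L →
  (∀ t ∈ Icc (0 : ℝ) L, 1 ≤ u (a + t • e)) →
  segCap n p * ENNReal.ofReal (L ^ (n - p)) ≤ en p u

/-- among all connected sets of given diameter a segment has the smallest `p`-capacity -/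
def StmtSTAR : Prop := ∀ (n : ℕ) (p : ℝ), 2 ≤ n → 1 ≤ p → p < n → ∀ (u : E n → ℝ),
  (∃ C, LipschitzWith C u) → HasCompactSupport u → (∀ x, 0 ≤ u x ∧ u x ≤ 1) →
  ∀ K : Set (E n), IsPreconnected K → ∀ a ∈ K, ∀ b ∈ K, (∀ x ∈ K, u x = 1) →
    segCap n p * ENNReal.ofReal (‖b - a‖ ^ (n - p)) ≤ en p u

/-- the capacity of a segment is positive and finite -/
def StmtPOS : Prop := ∀ (n : ℕ) (p : ℝ), 2 ≤ n → (n : ℝ) - 1 < p → p < n →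
  0 < segCap n p ∧ segCap n p < ⊤

/-- from metrics to functions, first half: smoothing the metric -/
def StmtMC1 : Prop := ∀ (n : ℕ) (p : ℝ), 1 < p → ∀ (G : Set (E n)) (f : E n → E n), IsOpen G →
  IsOpenEmbedding (fun x : G => f x) → ∀ (x₀ : E n) (r' r R : ℝ), 0 < r' → r' < r → r < R →
  closedBall x₀ R ⊆ G → ∀ ρ : E n → ℝ≥0∞, Measurable ρ →
  (∀ γ ∈ Delta (f '' sphere x₀ r) (f '' sphere x₀ R) (f '' G), 1 ≤ γ.lineInt ρ) →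
  ∫⁻ x, ρ x ^ p < ⊤ →
  ∃ (ρ₁ : E n → ℝ) (T : ℝ), 0 < T ∧ Continuous ρ₁ ∧ (∃ B, ∀ x, 0 ≤ ρ₁ x ∧ ρ₁ x ≤ B) ∧
    ∫⁻ x, ENNReal.ofReal (ρ₁ x) ^ p ≤ ∫⁻ x, ρ x ^ p ∧
    ∀ γ : Curve n, γ.toFun γ.a ∈ f '' closedBall x₀ r' →
      T ≤ infDist (γ.toFun γ.b) (f '' closedBall x₀ R) →
      1 ≤ γ.lineInt (fun x => ENNReal.ofReal (ρ₁ x))

/-- from metrics to functions, second half: the distance function of a continuous metric -/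
def StmtMC2 : Prop := ∀ (n : ℕ) (p : ℝ), 0 < p → ∀ ρ₁ : E n → ℝ, Continuous ρ₁ →
  (∃ B, ∀ x, 0 ≤ ρ₁ x ∧ ρ₁ x ≤ B) → ∀ K F : Set (E n),
  (∀ γ : Curve n, γ.toFun γ.a ∈ K → γ.toFun γ.b ∈ F →
    1 ≤ γ.lineInt (fun x => ENNReal.ofReal (ρ₁ x))) →
  ∃ u : E n → ℝ, (∃ C, LipschitzWith C u) ∧ (∀ x, 0 ≤ u x ∧ u x ≤ 1) ∧ (∀ x ∈ K, u x = 1) ∧
    (∀ x ∈ F, u x = 0) ∧ en p u ≤ ∫⁻ x, ENNReal.ofReal (ρ₁ x) ^ p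

/-- from metrics to functions -/
def StmtMODCAP : Prop := ∀ (n : ℕ) (p : ℝ), 1 < p → ∀ (G : Set (E n)) (f : E n → E n), IsOpen G →
  IsOpenEmbedding (fun x : G => f x) → ∀ (x₀ : E n) (r' r R : ℝ), 0 < r' → r' < r → r < R →
  closedBall x₀ R ⊆ G → ∀ ρ : E n → ℝ≥0∞, Measurable ρ →
  (∀ γ ∈ Delta (f '' sphere x₀ r) (f '' sphere x₀ R) (f '' G), 1 ≤ γ.lineInt ρ) →
  ∫⁻ x, ρ x ^ p < ⊤ →
  ∃ u : E n → ℝ, (∃ C, LipschitzWith C u) ∧ HasCompactSupport u ∧ (∀ x, 0 ≤ u x ∧ u x ≤ 1) ∧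
    (∀ x ∈ closedBall x₀ r', u (f x) = 1) ∧ en p u ≤ ∫⁻ x, ρ x ^ p

/-- the key lower bound for the module of the image ring -/
def StmtKEY : Prop := ∀ (n : ℕ) (p : ℝ), 2 ≤ n → (n : ℝ) - 1 < p → p < n →
  ∀ (G : Set (E n)) (f : E n → E n), IsOpen G → IsOpenEmbedding (fun x : G => f x) →
  ∀ (x₀ x : E n) (r R : ℝ), 0 < r → r < R → closedBall x₀ R ⊆ G → ‖x - x₀‖ ≤ r →
    segCap n p * ENNReal.ofReal (‖f x - f x₀‖ ^ (n - p)) ≤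
      pModule p (Delta (f '' sphere x₀ r) (f '' sphere x₀ R) (f '' G))

/-! ## Part II: the upper estimates -/

/-- (E3) holds with `C3` -/
def StmtE3U : Prop := ∀ (n : ℕ) (p : ℝ), 2 ≤ n → (n : ℝ) - 1 < p → p < n → E3 n p (C3 n p)

/-- the general estimate -/
def StmtMAS : Prop := ∀ (n : ℕ) (p : ℝ), 2 ≤ n → (n : ℝ) - 1 < p → p < n →
  ∀ (G : Set (E n)) (x₀ : E n) (Q : E n → ℝ≥0∞) (f : E n → E n), Data p G x₀ Q f →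
  ∀ (α : ℝ), 1 < α → ∀ (x : E n) (r R : ℝ), 0 < r → r < R → closedBall x₀ R ⊆ G → ‖x - x₀‖ ≤ r →
    ENNReal.ofReal (kap n p * ‖f x - f x₀‖ ^ (n - p)) ≤
      ENNReal.ofReal (om n ^ (1 - 1 / α) *
        (∫ s in r..R, s ^ (-bexp n p α - 1)) ^ (-(p - 1 + 1 / α))) *
      nrm α Q {x | r < dist x x₀ ∧ dist x x₀ < R}

/-- (E1) holds with `C1` -/
def StmtE1U : Prop := ∀ (n : ℕ) (p : ℝ), 2 ≤ n → (n : ℝ) - 1 < p → p < n →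
  ∀ D : Set (E n) → E n → Set (E n), (∀ G x₀, {x | edist x x₀ < min 1 (bdist G x₀)} ⊆ D G x₀) →
    E1 n p D (C1 n p)

/-- (E2) holds with `C2` -/
def StmtE2U : Prop := ∀ (n : ℕ) (p : ℝ), 2 ≤ n → (n : ℝ) - 1 < p → p < n →
  ∀ D : Set (E n) → E n → Set (E n), (∀ G x₀, {x | edist x x₀ < bdist G x₀} ⊆ D G x₀) →
    E2 n p D (C2 n p)

/-! ## Part III: sharpness -/

/-- scaling of the flux measure -/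
def StmtSCAL : Prop := ∀ (n : ℕ) (p : ℝ), 0 < p → ∀ (N : E n → ℝ) (lam : ℝ), 0 < lam →
  Continuous N → ∀ B : Set ℝ, MeasurableSet B →
  flux p (fun y => N (lam⁻¹ • y)) B = ENNReal.ofReal (lam ^ (n - p)) * flux p N B

/-- minimisers are monotone along the rays -/
def StmtWMIN : Prop := ∀ (n : ℕ) (p : ℝ), 1 < p → p < n → ∀ (K₀ : Set (E n)) (d M : ℝ), 0 < d →
  (∀ y, ‖y‖ ≤ d → y ∈ K₀) → (∀ y ∈ K₀, ‖y‖ < M) → (∀ y ∈ K₀, ∀ t ∈ Icc (0 : ℝ) 1, t • y ∈ K₀) →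
  ∀ u : E n → ℝ, (∃ C, LipschitzWith C u) → (∀ y, 0 ≤ u y ∧ u y ≤ 1) → (∀ y ∈ K₀, u y = 1) →
  (∀ y, M ≤ ‖y‖ → u y = 0) →
  ∃ w : E n → ℝ, (∃ C, LipschitzWith C w) ∧ (∀ y, 0 ≤ w y ∧ w y ≤ 1) ∧ (∀ y ∈ K₀, w y = 1) ∧
    (∀ y, M ≤ ‖y‖ → w y = 0) ∧ (∀ y, ∀ t ∈ Icc (0 : ℝ) 1, w y ≤ w (t • y)) ∧ en p w ≤ en p u

/-- near-optimal functions which decrease along the rays -/
def StmtW : Prop := ∀ (n : ℕ) (p : ℝ), 2 ≤ n → 1 < p → p < n → segCap n p < ⊤ →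
  ∀ ε : ℝ, 0 < ε → ∃ M₀ : ℝ, 1 < M₀ ∧ ∀ M, M₀ ≤ M → ∃ (w : E n → ℝ) (e : E n) (δ : ℝ),
    ‖e‖ = 1 ∧ 0 < δ ∧ δ < 1 ∧ (∃ C, LipschitzWith C w) ∧ (∀ y, 0 ≤ w y ∧ w y ≤ 1) ∧
    (∀ y, ‖y‖ ≤ δ → w y = 1) ∧ (∀ t ∈ Icc (0 : ℝ) 1, w (t • e) = 1) ∧
    (∀ y, M ≤ ‖y‖ → w y = 0) ∧ (∀ y, ∀ t ∈ Icc (0 : ℝ) 1, w y ≤ w (t • y)) ∧
    en p w ≤ segCap n p + ENNReal.ofReal ε

/-- volumes of the level sets of a star function -/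
def StmtVOLC : Prop := ∀ (n : ℕ) (c l : ℝ) (N : E n → ℝ), 2 ≤ n → IsStar c l N →
  ∃ c₁ c₂ : ℝ, 0 < c₁ ∧ 0 < c₂ ∧ ∀ B, MeasurableSet B → B ⊆ Ioi 0 →
    ENNReal.ofReal c₁ * ∫⁻ s in B, ENNReal.ofReal (s ^ (n - 1)) ≤ volume (N ⁻¹' B) ∧
    volume (N ⁻¹' B) ≤ ENNReal.ofReal c₂ * ∫⁻ s in B, ENNReal.ofReal (s ^ (n - 1))

/-- the flux measure of a star function has a density -/
def StmtDENS : Prop := ∀ (n : ℕ) (p c l : ℝ) (N : E n → ℝ), 2 ≤ n → 1 ≤ p → IsStar c l N →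
  (∃ (D : ℝ → ℝ≥0∞) (d₁ d₂ : ℝ), IsDens p N D d₁ d₂) ∧
  ∀ B : Set ℝ, B ⊆ Ioi 0 → volume B = 0 → volume (N ⁻¹' B) = 0

/-- needles -/
def StmtNEEDLE : Prop := ∀ (n : ℕ) (p : ℝ), 2 ≤ n → (n : ℝ) - 1 < p → p < n →
  ∀ ε : ℝ, 0 < ε → ∃ M₀ : ℝ, 1 < M₀ ∧ ∀ M, M₀ ≤ M →
  ∃ (N : E n → ℝ) (e : E n) (A δ c l : ℝ), ‖e‖ = 1 ∧ 0 < A ∧ 0 < δ ∧ δ < 1 ∧ IsStar c l N ∧
    (∀ y, ‖y‖ ≤ δ → N y = ‖y‖) ∧ (∀ y, M ≤ ‖y‖ → N y = ‖y‖ + A) ∧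
    (∀ t ∈ Icc (0 : ℝ) 1, N (t • e) = t) ∧
    ∀ (D : ℝ → ℝ≥0∞) (d₁ d₂ : ℝ), IsDens p N D d₁ d₂ →
      (segCap n p + ENNReal.ofReal ε) ^ (-(1 / (p - 1))) ≤
        ∫⁻ t in Ioo 1 (M + A), D t ^ (-(1 / (p - 1)))

/-- the homeomorphism of a star function -/
def StmtHOMEO : Prop := ∀ (n : ℕ) (c l : ℝ) (N : E n → ℝ), IsStar c l N →
  ∃ f : E n ≃ₜ E n, (∀ x, N (f x) = ‖x‖) ∧ ∀ x, ∃ s : ℝ, 0 ≤ s ∧ f x = s • x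

/-- upper bound for the module by a level function -/
def StmtRING : Prop := ∀ (n : ℕ) (p : ℝ), 0 < p → ∀ N : E n → ℝ, (∃ C, LipschitzWith C N) →
  ∀ (A B D : Set (E n)) (r₁ r₂ : ℝ), r₁ < r₂ → (∀ y ∈ A, N y = r₁) → (∀ y ∈ B, N y = r₂) →
  ∀ η : ℝ → ℝ≥0∞, Measurable η → 1 ≤ ∫⁻ r in Ioo r₁ r₂, η r →
    pModule p (Delta A B D) ≤ ∫⁻ y in N ⁻¹' Ioo r₁ r₂, η (N y) ^ p * ‖fderiv ℝ N y‖ₑ ^ p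

/-- ring `Q`-homeomorphisms from star functions -/
def StmtIRQ : Prop := ∀ (n : ℕ) (p c l : ℝ) (N : E n → ℝ) (f : E n ≃ₜ E n) (G : Set (E n))
  (Q : E n → ℝ≥0∞), 0 < p → IsStar c l N → (∀ x, N (f x) = ‖x‖) → IsOpen G → Measurable Q →
  (∀ ρ : ℝ, 0 < ρ → closedBall 0 ρ ⊆ G → ∀ B, MeasurableSet B → B ⊆ Ioo 0 ρ →
    flux p N B ≤ ∫⁻ x in {x | ‖x‖ ∈ B}, Q x) → IsRingQHomeo p G 0 Q f

/-- composition with a function of one variable -/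
def StmtCHAIN : Prop := ∀ (n : ℕ) (p c l : ℝ) (N : E n → ℝ) (D : ℝ → ℝ≥0∞) (d₁ d₂ : ℝ), 2 ≤ n →
  1 ≤ p → IsStar c l N → IsDens p N D d₁ d₂ → ∀ (h : ℝ → ℝ) (C : ℝ≥0), LipschitzWith C h →
  ∀ B, MeasurableSet B → B ⊆ Ioi 0 → ∀ ψ : ℝ → ℝ≥0∞, Measurable ψ →
    ∫⁻ y in N ⁻¹' B, ψ (h (N y)) * ‖fderiv ℝ (fun z => h (N z)) y‖ₑ ^ p =
      ∫⁻ t in B, ψ (h t) * ‖deriv h t‖ₑ ^ p * D t

/-- matching of fluxes -/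
def StmtFLUX : Prop := ∀ (p : ℝ), 1 < p → ∀ (D : ℝ → ℝ≥0∞), Measurable D →
  ∀ (t₀ t₁ d₁ d₂ : ℝ), t₀ < t₁ → 0 < d₁ →
  (∀ t ∈ Icc t₀ t₁, ENNReal.ofReal d₁ ≤ D t ∧ D t ≤ ENNReal.ofReal d₂) →
  ∀ (r₀ r₁ : ℝ) (θ : ℝ → ℝ), r₀ < r₁ → ContinuousOn θ (Icc r₀ r₁) → (∀ s ∈ Icc r₀ r₁, 0 < θ s) →
  ENNReal.ofReal (∫ s in r₀..r₁, θ s) ≤ ∫⁻ t in Ioo t₀ t₁, D t ^ (-(1 / (p - 1))) →
  ∃ (h : ℝ → ℝ) (c' C' : ℝ), 0 < c' ∧ h t₀ = r₀ ∧ h t₁ = r₁ ∧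
    (∀ s t, t₀ ≤ s → s ≤ t → t ≤ t₁ → c' * (t - s) ≤ h t - h s ∧ h t - h s ≤ C' * (t - s)) ∧
    ∀ ψ : ℝ → ℝ≥0∞, Measurable ψ →
      ∫⁻ t in Ioo t₀ t₁, ψ (h t) * ‖deriv h t‖ₑ ^ p * D t ≤
        ∫⁻ s in Ioo r₀ r₁, ψ s * ENNReal.ofReal (θ s ^ (1 - p))

/-- homeomorphisms of a ball with a prescribed profile -/
def StmtPROF : Prop := ∀ (n : ℕ) (p : ℝ), 2 ≤ n → (n : ℝ) - 1 < p → p < n →
  ∀ (r R : ℝ) (θ : ℝ → ℝ), 0 < r → r < R → ContinuousOn θ (Icc r R) →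
  (∀ s ∈ Icc r R, 0 < θ s) → ∀ ε : ℝ, 0 < ε →
  ∃ (f : E n → E n) (Q : E n → ℝ≥0∞), Measurable Q ∧ IsRingQHomeo p (ball 0 R) 0 Q f ∧
    (∀ x, r < ‖x‖ → ‖x‖ < R →
      Q x = ENNReal.ofReal (θ ‖x‖ ^ (1 - p) / (om n * ‖x‖ ^ (n - 1)))) ∧
    (∀ x, ‖x‖ ≤ r → Q x ≤ ENNReal.ofReal ε) ∧
    ∃ x, ‖x‖ = r ∧ (∫ s in r..R, θ s) ^ (1 - p) ≤ ‖f x - f 0‖ ^ (n - p) * (kap n p + ε)

/-- the general estimate is sharp -/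
def StmtSH : Prop := ∀ (n : ℕ) (p : ℝ), 2 ≤ n → (n : ℝ) - 1 < p → p < n →
  ∀ (α r R ε : ℝ), 1 < α → 0 < r → r < R → 0 < ε →
  ∃ (f : E n → E n) (Q : E n → ℝ≥0∞) (x : E n), Measurable Q ∧ IsRingQHomeo p (ball 0 R) 0 Q f ∧
    ‖x‖ = r ∧ nrm α Q (ball 0 R) < ⊤ ∧
    ENNReal.ofReal (om n ^ (1 - 1 / α) *
        (∫ s in r..R, s ^ (-bexp n p α - 1)) ^ (-(p - 1 + 1 / α))) * nrm α Q (ball 0 R) ≤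
      ENNReal.ofReal ((1 + ε) * kap n p * ‖f x - f 0‖ ^ (n - p))

/-- sharpness of (E1) -/
def StmtE1L : Prop := ∀ (n : ℕ) (p : ℝ), 2 ≤ n → (n : ℝ) - 1 < p → p < n →
  ∀ D : Set (E n) → E n → Set (E n), (∀ G x₀, D G x₀ ⊆ G) → ∀ C : ℝ, 0 ≤ C → E1 n p D C →
    C1 n p ≤ C

/-- sharpness of (E2) -/
def StmtE2L : Prop := ∀ (n : ℕ) (p : ℝ), 2 ≤ n → (n : ℝ) - 1 < p → p < n →
  ∀ D : Set (E n) → E n → Set (E n), (∀ G x₀, D G x₀ ⊆ G) → ∀ C : ℝ, 0 ≤ C → E2 n p D C →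
    C2 n p ≤ C

/-- self-similar gluing of star functions -/
def StmtGLUE : Prop := ∀ (n : ℕ) (a c l : ℝ) (R₀ : E n → ℝ), 0 < a → a < 1 → 0 < c → c ≤ 1 →
  1 ≤ l → (∀ y z, a ≤ ‖y‖ → ‖y‖ ≤ 1 → a ≤ ‖z‖ → ‖z‖ ≤ 1 → |R₀ y - R₀ z| ≤ l * ‖y - z‖) →
  (∀ y, ‖y‖ ≤ 1 → ∀ t ∈ Icc (0 : ℝ) 1, a ≤ ‖t • y‖ → c * (1 - t) * ‖y‖ ≤ R₀ y - R₀ (t • y)) →
  (∀ y, ‖y‖ = 1 → R₀ y = 1) → (∀ y, ‖y‖ = a → R₀ y = a) →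
  ∃ R : E n → ℝ, IsStar c l R ∧ (∀ y, a ≤ ‖y‖ → ‖y‖ ≤ 1 → R y = R₀ y) ∧
    ∀ y, R (a • y) = a * R y

/-- one block of the extremal map for (E3) -/
def StmtBLK : Prop := ∀ (n : ℕ) (p : ℝ), 2 ≤ n → (n : ℝ) - 1 < p → p < n →
  ∀ ε : ℝ, 0 < ε → ε < 1 → ∃ (a b lam c l : ℝ) (e : E n) (R₀ : E n → ℝ),
    0 < a ∧ a < b ∧ b < 1 ∧ a < lam ∧ lam < 1 ∧ 0 < c ∧ c ≤ 1 ∧ 1 ≤ l ∧ ‖e‖ = 1 ∧
    (∀ y z, |R₀ y - R₀ z| ≤ l * ‖y - z‖) ∧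
    (∀ y, ‖y‖ ≤ 1 → ∀ t ∈ Icc (0 : ℝ) 1, a ≤ ‖t • y‖ → c * (1 - t) * ‖y‖ ≤ R₀ y - R₀ (t • y)) ∧
    (∀ y, ‖y‖ = 1 → R₀ y = 1) ∧ (∀ y, ‖y‖ = a → R₀ y = a) ∧
    R₀ (lam • e) = b ∧ C3 n p ≤ (1 + ε) * (lam / b) ∧
    ∫⁻ y in {y | a < ‖y‖ ∧ ‖y‖ < 1}, ‖fderiv ℝ R₀ y‖ₑ ^ p ≤
      ENNReal.ofReal ((1 + ε) * (1 - a ^ n) * (om n / n)) ∧
    ∀ r : ℝ, a ≤ r → r ≤ 1 →
      ENNReal.ofReal ((1 + ε) * (om n / n * a ^ n)) +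
        ∫⁻ y in {y | a < ‖y‖ ∧ ‖y‖ < 1 ∧ R₀ y < r}, ‖fderiv ℝ R₀ y‖ₑ ^ p ≤
      ENNReal.ofReal ((1 + ε) ^ 2 * (om n / n * r ^ n))

/-- sharpness of (E3) -/
def StmtE3L : Prop := ∀ (n : ℕ) (p : ℝ), 2 ≤ n → (n : ℝ) - 1 < p → p < n →
  ∀ C : ℝ, 0 ≤ C → E3 n p C → C3 n p ≤ C

/-- the norms over the smaller balls are not sufficient -/
def StmtLIT : Prop := ∀ (n : ℕ) (p : ℝ), 2 ≤ n → (n : ℝ) - 1 < p → p < n →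
  ∀ d δ ε : ℝ, 0 < δ → δ < d → 0 < ε →
  ∃ (f : E n → E n) (Q : E n → ℝ≥0∞), Measurable Q ∧ IsRingQHomeo p (ball 0 d) 0 Q f ∧
    (∃ x, δ / 2 < ‖x‖ ∧ ‖x‖ < δ ∧ 1 ≤ ‖f x - f 0‖) ∧
    ∀ y, ‖y‖ < δ → Q y ≤ ENNReal.ofReal ε

/-- (E1) and (E2) fail when the norm is taken over the ball of radius `δ₁`, `δ₂` -/
def StmtLIT2 : Prop := ∀ (n : ℕ) (p : ℝ), 2 ≤ n → (n : ℝ) - 1 < p → p < n → ∀ C : ℝ,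
  ¬ E1 n p (fun G x₀ => {x | edist x x₀ < min 1 (bdist G x₀ ^ 4)}) C ∧
  ¬ E2 n p (fun G x₀ => {x | edist x x₀ < bdist G x₀ / 4}) C

/-- the main theorem -/
def StmtMain : Prop := ∀ (n : ℕ) (p : ℝ), 2 ≤ n → (n : ℝ) - 1 < p → p < n →
  (0 < segCap n p ∧ segCap n p < ⊤) ∧
  IsLeast {C : ℝ | 0 ≤ C ∧ E3 n p C} (C3 n p) ∧
  (∀ D : Set (E n) → E n → Set (E n),
    (∀ G x₀, {x | edist x x₀ < min 1 (bdist G x₀)} ⊆ D G x₀ ∧ D G x₀ ⊆ G) →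
      IsLeast {C : ℝ | 0 ≤ C ∧ E1 n p D C} (C1 n p)) ∧
  (∀ D : Set (E n) → E n → Set (E n),
    (∀ G x₀, {x | edist x x₀ < bdist G x₀} ⊆ D G x₀ ∧ D G x₀ ⊆ G) →
      IsLeast {C : ℝ | 0 ≤ C ∧ E2 n p D C} (C2 n p)) ∧
  ∀ C : ℝ, ¬ E1 n p (fun G x₀ => {x | edist x x₀ < min 1 (bdist G x₀ ^ 4)}) C ∧
    ¬ E2 n p (fun G x₀ => {x | edist x x₀ < bdist G x₀ / 4}) C

end Pool.Agent.Helper12.RQ
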