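import Pool.Agent.Helper12.RQ.Polar

/-!
# Assembly of the main theorem
-/

set_option autoImplicit false

open MeasureTheory Set Filter Topology Metric

open scoped ENNReal NNReal ContDiff

namespace Pool.Agent.Helper12.RQ

theorem om_nonneg (n : ℕ) : 0 ≤ om n := by
  unfold om
  positivity

theorem C3_nonneg (n : ℕ) (p : ℝ) (hn : 2 ≤ n) (hp : (n : ℝ) - 1 < p) (hp' : p < n) :
    0 ≤ C3 n p := by
  have h2 : (2 : ℝ) ≤ n := by exact_mod_cast hn
  unfold C3
  have h1 : 0 ≤ kap n p := ENNReal.toReal_nonneg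
  have h3 := om_nonneg n
  have h4 : (0 : ℝ) < n - 1 := by linarith
  have h5 : (0 : ℝ) < n - p := by linarith
  have h6 : (0 : ℝ) < p := by linarith
  apply mul_nonneg (by positivity)
  apply Real.rpow_nonneg
  apply mul_nonneg (by positivity)
  apply Real.rpow_nonneg
  positivity

theorem C1_nonneg (n : ℕ) (p : ℝ) : 0 ≤ C1 n p := by
  unfold C1
  have h1 : 0 ≤ kap n p := ENNReal.toReal_nonneg
  have h3 := om_nonneg n
  positivity

theorem C2_nonneg (n : ℕ) (p : ℝ) : 0 ≤ C2 n p := by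
  unfold C2
  apply Real.iSup_nonneg
  rintro ⟨α, hα⟩
  unfold C2a
  by_cases hb : 0 ≤ om n ^ (1 - 1 / α) / kap n p *
    (bexp n p α / (1 - 4 ^ (-bexp n p α))) ^ (p - 1 + 1 / α)
  · exact Real.rpow_nonneg hb _
  · exfalso
    apply hb
    have h1 : 0 ≤ kap n p := ENNReal.toReal_nonneg
    have h3 := om_nonneg n
    apply mul_nonneg (by positivity)
    apply Real.rpow_nonneg
    rcases le_total 0 (bexp n p α) with h | h
    · apply div_nonneg h
      have : (4 : ℝ) ^ (-bexp n p α) ≤ 1 :=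
        Real.rpow_le_one_of_one_le_of_nonpos (by norm_num) (by linarith)
      linarith
    · apply div_nonneg_of_nonpos h
      have : (1 : ℝ) ≤ 4 ^ (-bexp n p α) :=
        Real.one_le_rpow (by norm_num) (by linarith)
      linarith

theorem main (h0 : StmtPOS) (h1 : StmtE3U) (h2 : StmtE3L) (h3 : StmtE1U) (h4 : StmtE1L)
    (h5 : StmtE2U) (h6 : StmtE2L) (h7 : StmtLIT2) : StmtMain := by
  intro n p hn hp hp'
  refine ⟨h0 n p hn hp hp', ⟨⟨C3_nonneg n p hn hp hp', h1 n p hn hp hp'⟩, ?_⟩, ?_, ?_, ?_⟩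
  · rintro C ⟨hC, hE⟩
    exact h2 n p hn hp hp' C hC hE
  · intro D hD
    refine ⟨⟨C1_nonneg n p, h3 n p hn hp hp' D fun G x₀ => (hD G x₀).1⟩, ?_⟩
    rintro C ⟨hC, hE⟩
    exact h4 n p hn hp hp' D (fun G x₀ => (hD G x₀).2) C hC hE
  · intro D hD
    refine ⟨⟨C2_nonneg n p, h5 n p hn hp hp' D fun G x₀ => (hD G x₀).1⟩, ?_⟩
    rintro C ⟨hC, hE⟩
    exact h6 n p hn hp hp' D (fun G x₀ => (hD G x₀).2) C hC hE
  · exact h7 n p hn hp hp'

end Pool.Agent.Helper12.RQ
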