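import Pool.Agent.Helper12.RQ.Goals

/-!
# Polar coordinates for radial functions
-/

set_option autoImplicit false

open MeasureTheory Set Filter Topology Metric

open scoped ENNReal NNReal ContDiff

namespace Pool.Agent.Helper12.RQ

theorem polar_aux (n : ℕ) (hn : 1 ≤ n) (g : ℝ → ℝ≥0∞) (hg : Measurable g) (_h0 : g 0 = 0) :
    ∫⁻ x : E n, g ‖x‖ =
      ENNReal.ofReal (om n) * ∫⁻ s in Ioi (0 : ℝ), g s * ENNReal.ofReal (s ^ (n - 1)) := by
  have : Nonempty (Fin n) := ⟨⟨0, hn⟩⟩
  have : Nontrivial (E n) := inferInstance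
  have hdim : Module.finrank ℝ (E n) = n := by simp
  calc
    ∫⁻ x : E n, g ‖x‖ = ∫⁻ x in ({(0 : E n)}ᶜ : Set (E n)), g ‖x‖ := by
      rw [restrict_compl_singleton]
    _ = ∫⁻ x : ({(0 : E n)}ᶜ : Set (E n)), g ‖x.1‖ ∂((volume : Measure (E n)).comap (Subtype.val)) := by
      rw [lintegral_subtype_comap (measurableSet_singleton _).compl (fun x : E n => g ‖x‖)]
    _ = ∫⁻ x, g x.2 ∂(volume : Measure (E n)).toSphere.prod
          (.volumeIoiPow (Module.finrank ℝ (E n) - 1)) := by
      have := (volume : Measure (E n)).measurePreserving_homeomorphUnitSphereProd.lintegral_comp_emb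
        (Homeomorph.measurableEmbedding _) (fun z => g (z.2 : ℝ))
      simpa using this
    _ = (volume : Measure (E n)).toSphere univ *
        ∫⁻ x : Ioi (0 : ℝ), g x ∂.volumeIoiPow (Module.finrank ℝ (E n) - 1) := by
      rw [lintegral_prod _ (by fun_prop)]
      simp [mul_comm]
    _ = _ := by
      rw [Measure.toSphere_apply_univ, hdim]
      congr 1
      · unfold om
        rw [ENNReal.ofReal_mul (by positivity), ENNReal.ofReal_natCast,
          ENNReal.ofReal_toReal measure_ball_lt_top.ne]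
      · rw [Measure.volumeIoiPow, lintegral_withDensity_eq_lintegral_mul _ (by fun_prop)
          (by fun_prop)]
        rw [← lintegral_subtype_comap measurableSet_Ioi
          (fun s => g s * ENNReal.ofReal (s ^ (n - 1)))]
        simp [mul_comm]

/-- polar coordinates for radial functions -/
theorem polar (n : ℕ) (hn : 1 ≤ n) (g : ℝ → ℝ≥0∞) (hg : Measurable g) (B : Set ℝ)
    (hB : MeasurableSet B) (hB0 : B ⊆ Ioi 0) :
    ∫⁻ x in {x : E n | ‖x‖ ∈ B}, g ‖x‖ =
      ENNReal.ofReal (om n) * ∫⁻ s in B, g s * ENNReal.ofReal (s ^ (n - 1)) := by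
  have hm : MeasurableSet {x : E n | ‖x‖ ∈ B} := measurable_norm hB
  rw [← lintegral_indicator hm, ← lintegral_indicator hB]
  have h1 : (fun x : E n => {x : E n | ‖x‖ ∈ B}.indicator (fun x => g ‖x‖) x) =
      fun x => (B.indicator g) ‖x‖ := by
    funext x
    simp [indicator]
  rw [h1, polar_aux n hn _ (hg.indicator hB)]
  · congr 1
    rw [← lintegral_indicator measurableSet_Ioi]
    congr 1
    funext s
    by_cases hs : s ∈ B
    · have : s ∈ Ioi (0 : ℝ) := hB0 hs
      simp [indicator, hs, this.out]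
    · simp [indicator, hs]
  · have : (0 : ℝ) ∉ B := fun h => lt_irrefl (0 : ℝ) (mem_Ioi.1 (hB0 h))
    simp [this]

theorem om_pos (n : ℕ) (hn : 1 ≤ n) : 0 < om n := by
  unfold om
  have h1 : 0 < (volume (ball (0 : E n) 1)).toReal :=
    ENNReal.toReal_pos (measure_ball_pos _ _ one_pos).ne' measure_ball_lt_top.ne
  have : (0 : ℝ) < n := by exact_mod_cast hn
  positivity

/-- volume of balls -/
theorem vol_ball (n : ℕ) (hn : 1 ≤ n) (x : E n) (r : ℝ) (hr : 0 ≤ r) :
    volume (ball x r) = ENNReal.ofReal (om n / n * r ^ n) := by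
  have : Nonempty (Fin n) := ⟨⟨0, hn⟩⟩
  have hn' : (0 : ℝ) < n := by exact_mod_cast hn
  rw [Measure.addHaar_ball _ _ hr]
  have hdim : Module.finrank ℝ (E n) = n := by simp
  rw [hdim]
  have : om n / n = (volume (ball (0 : E n) 1)).toReal := by
    unfold om
    field_simp
  rw [this, mul_comm, ENNReal.ofReal_mul ENNReal.toReal_nonneg,
    ENNReal.ofReal_toReal measure_ball_lt_top.ne]

end Pool.Agent.Helper12.RQ
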